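import Pool.Agent.Lib.MP_f91ac8_co.FibMain

set_option autoImplicit false

universe u

namespace Pool.Agent.Results.MP_f91ac8_co.FibNotRegular

open Pool.Agent.Lib.MP_f91ac8_co Pool.Agent.Lib.MP_f91ac8_co.FQ

/-- The prefix palindromic length of the Fibonacci word `fw` (the fixed point of `a ↦ ab`,
`b ↦ a`) is not Fibonacci-regular: it has no linear representation over the integers reading the
Zeckendorf word of `n`, and none over any field of characteristic zero. -/
theorem result :
    (fw 1 = false ∧ ∀ n, pref fw (mor (pref fw n)).length = mor (pref fw n)) ∧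
    (∀ n, ∃! w : List Bool, IsZeck w n) ∧
    (¬ IsFibRegular fun n => (PPL fw n : ℤ)) ∧
    ∀ (κ : Type u) [Field κ] [CharZero κ], ¬ IsFibRegularOver κ fun n => (PPL fw n : ℤ) :=
  ⟨⟨rfl, mor_pref⟩, stZeck_41, fibFinal, fun κ _ _ => fibGen κ⟩

end Pool.Agent.Results.MP_f91ac8_co.FibNotRegular
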