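import Pool.Agent.Lib.MP_f91ac8_co.Bounds

set_option autoImplicit false

namespace Pool.Agent.Results.MP_f91ac8_co.NotRegular

open Pool.Agent.Lib.MP_f91ac8_co

/-- The word `u_n = v_2(n) mod 4` (`n ≥ 1`) over a four-letter alphabet is `2`-automatic, but its
prefix palindromic length is not a `2`-regular sequence. -/
theorem result :
    ∃ u : ℕ → Fin 4,
      (∀ n, 1 ≤ n → (u n : ℕ) = padicValNat 2 n % 4) ∧
      IsAutomaticWord 2 u ∧
      ¬ IsRegularSeq 2 (fun n => (PPL u n : ℤ)) :=
  ⟨ruler, fun n _ => by simp [ruler, Fin.ofNat], automatic, not_regular⟩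

end Pool.Agent.Results.MP_f91ac8_co.NotRegular
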